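import Pool.Agent.H53.VK.Stm2

set_option autoImplicit false

namespace VK

theorem dtl_one (X : Finset Pt) (e f t : Fn) (w : Pt) (hX : X.Nonempty)
    (he : ∀ z ∈ X, ev e z = 0) (hew : ev e w ≠ 0) (hfw : ev f w = 0)
    (hf : ∀ z ∈ X, ev f z < 0) (ht : det t f ≠ 0) (htw : ev t w = 0) :
    ∃ (ρ : ℝ) (u : Pt), u ∈ X ∧ ev t u + ρ * ev f u = 0 ∧
      (∀ z ∈ X, z ≠ u → 0 < ev t z + ρ * ev f z) := by
  obtain ⟨u, hu, hmin⟩ := Finset.exists_min_image X (fun z => ev t z / (-ev f z)) hX
  have hfu : 0 < -ev f u := by linarith [hf u hu]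
  set ρ : ℝ := ev t u / (-ev f u) with hρ
  have h0 : ev t u + ρ * ev f u = 0 := by
    have h1 : ρ * (-ev f u) = ev t u := by
      rw [hρ]; exact div_mul_cancel₀ _ hfu.ne'
    linarith
  refine ⟨ρ, u, hu, h0, ?_⟩
  intro z hz hzu
  have hfz : 0 < -ev f z := by linarith [hf z hz]
  have h1 : ρ * (-ev f z) ≤ ev t z := by
    have h2 : ρ ≤ ev t z / (-ev f z) := hmin z hz
    calc ρ * (-ev f z) ≤ ev t z / (-ev f z) * (-ev f z) :=
          mul_le_mul_of_nonneg_right h2 hfz.le
      _ = ev t z := div_mul_cancel₀ _ hfz.ne'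
  have h3 : 0 ≤ ev t z + ρ * ev f z := by linarith
  rcases h3.lt_or_eq with h4 | h4
  · exact h4
  · exfalso
    -- d = t + ρ f vanishes at u, z, w
    have ezu := he z hz
    have euu := he u hu
    simp only [ev] at h0 h4 ezu euu htw hfw hew
    set a := t.a + ρ * f.a with ha
    set b := t.b + ρ * f.b with hb
    have k1 : a * (z.1 - u.1) + b * (z.2 - u.2) = 0 := by
      rw [ha, hb]; linear_combination (-1 : ℝ) * h4 - h0
    have k2 : e.a * (z.1 - u.1) + e.b * (z.2 - u.2) = 0 := by
      linear_combination ezu - euu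
    have k3 : a * e.b - b * e.a = 0 := by
      by_contra hne
      have l1 : (a * e.b - b * e.a) * (z.1 - u.1) = 0 := by
        linear_combination e.b * k1 - b * k2
      have l2 : (a * e.b - b * e.a) * (z.2 - u.2) = 0 := by
        linear_combination (-e.a) * k1 + a * k2
      have l3 := (mul_eq_zero.1 l1).resolve_left hne
      have l4 := (mul_eq_zero.1 l2).resolve_left hne
      exact hzu (Prod.ext (by linarith) (by linarith))
    have k4 : a * (w.1 - u.1) + b * (w.2 - u.2) = 0 := by
      rw [ha, hb]; linear_combination htw + ρ * hfw - h0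
    have k5 : e.a * (w.1 - u.1) + e.b * (w.2 - u.2) = e.a * w.1 + e.b * w.2 + e.c := by
      linear_combination (-1 : ℝ) * euu
    have k6 : a * (e.a * w.1 + e.b * w.2 + e.c) = 0 := by
      rw [← k5]; linear_combination e.a * k4 + (w.2 - u.2) * k3
    have k7 : b * (e.a * w.1 + e.b * w.2 + e.c) = 0 := by
      rw [← k5]; linear_combination e.b * k4 - (w.1 - u.1) * k3
    have k8 := (mul_eq_zero.1 k6).resolve_right hew
    have k9 := (mul_eq_zero.1 k7).resolve_right hew
    apply ht
    have m1 : t.a = -ρ * f.a := by linarith [ha]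
    have m2 : t.b = -ρ * f.b := by linarith [hb]
    simp only [det, m1, m2]; ring

theorem DTL_proved : DTL_stmt := by
  intro X e f w p _ he hX2 hew hfw hf hpw hfp
  have hXne : X.Nonempty := Finset.card_pos.1 (by omega)
  have hfn : Nc f := by
    obtain ⟨z, hz⟩ := hXne
    have h1 := hf z hz
    by_contra hcon
    simp only [Nc, not_or, not_not] at hcon
    simp only [ev, hcon.1, hcon.2] at h1 hfw
    linarith
  obtain ⟨t0, ht0⟩ := exists_frame f hfn
  set t : Fn := lin 1 t0 0 f (-ev t0 w) with htdef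
  have htw : ev t w = 0 := by rw [htdef, ev_lin]; ring
  have ht : det t f ≠ 0 := by
    have : det t f = det t0 f := by
      rw [htdef]; simp only [det, lin]; ring
    rw [this]; exact ht0
  set s : Fn := lin (-1) t 0 f 0 with hsdef
  have hsev : ∀ z, ev s z = - ev t z := by
    intro z; rw [hsdef, ev_lin]; ring
  have hs : det s f ≠ 0 := by
    have : det s f = - det t f := by
      rw [hsdef]; simp only [det, lin]; ring
    rw [this]; exact neg_ne_zero.2 ht
  have hsw : ev s w = 0 := by rw [hsev, htw]; ring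
  obtain ⟨ρ1, u1, hu1, z1, q1⟩ := dtl_one X e f t w hXne he hew hfw hf ht htw
  obtain ⟨ρ2, u2, hu2, z2, q2⟩ := dtl_one X e f s w hXne he hew hfw hf hs hsw
  have hρ : ρ1 + ρ2 < 0 := by
    obtain ⟨z, hz, hzu⟩ := Finset.exists_mem_ne (by omega : 1 < X.card) u1
    have h1 := q1 z hz hzu
    have h2 : 0 ≤ ev s z + ρ2 * ev f z := by
      by_cases h : z = u2
      · rw [h, z2]
      · exact (q2 z hz h).le
    rw [hsev] at h2
    have h3 := hf z hz
    by_contra hcon
    push Not at hcon
    nlinarith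
  have hor : ev t p + ρ1 * ev f p < 0 ∨ ev s p + ρ2 * ev f p < 0 := by
    by_contra hcon
    push Not at hcon
    obtain ⟨c1, c2⟩ := hcon
    rw [hsev] at c2
    rcases hfp.lt_or_eq with h | h
    · nlinarith
    · rw [← h] at c1 c2
      have h5 : ev t p = 0 := by linarith
      apply hpw
      -- p = w from the frame
      simp only [ev] at h5 h htw hfw
      have g1 : t.a * (p.1 - w.1) + t.b * (p.2 - w.2) = 0 := by linear_combination h5 - htw
      have g2 : f.a * (p.1 - w.1) + f.b * (p.2 - w.2) = 0 := by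
        linear_combination (-1 : ℝ) * h - hfw
      have l1 : det t f * (p.1 - w.1) = 0 := by
        simp only [det]; linear_combination f.b * g1 - t.b * g2
      have l2 : det t f * (p.2 - w.2) = 0 := by
        simp only [det]; linear_combination (-f.a) * g1 + t.a * g2
      have l3 := (mul_eq_zero.1 l1).resolve_left ht
      have l4 := (mul_eq_zero.1 l2).resolve_left ht
      exact Prod.ext (by linarith) (by linarith)
  rcases hor with h | h
  · refine ⟨lin 1 t ρ1 f 0, u1, hu1, ?_, ?_, ?_, ?_⟩
    · rw [ev_lin]; linarith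
    · rw [ev_lin, htw, hfw]; ring
    · intro z hz hzu
      rw [ev_lin]; linarith [q1 z hz hzu]
    · rw [ev_lin]; linarith
  · refine ⟨lin 1 s ρ2 f 0, u2, hu2, ?_, ?_, ?_, ?_⟩
    · rw [ev_lin]; linarith
    · rw [ev_lin, hsw, hfw]; ring
    · intro z hz hzu
      rw [ev_lin]; linarith [q2 z hz hzu]
    · rw [ev_lin]; linarith

end VK
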